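import Pool.Agent.Run7.h668.TK.Iface
/-! Project TK (helper668): piece CMP (helper73). -/
set_option autoImplicit false

namespace Pool.Agent.Run7.h73.TK.CMP

open Pool.Agent.Run7.h668.TK
open Polynomial

lemma ssum_mul (ℓ : List ℕ) (F : ℕ → ℕ → ℚ) (r : ℚ) :
    ssum ℓ (fun s b => F s b * r) = ssum ℓ F * r := by
  induction ℓ generalizing F with
  | nil => rfl
  | cons a ℓ ih =>
    simp only [ssum]
    rw [ih F, ih (fun s b => F (s + 1) (b + a)), sub_mul]

lemma ssum_congr_sub (ℓ : List ℕ) (F G : ℕ → ℕ → ℚ)
    (h : ∀ S : List ℕ, S.Sublist ℓ → F S.length S.sum = G S.length S.sum) :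
    ssum ℓ F = ssum ℓ G := by
  induction ℓ generalizing F G with
  | nil => exact h [] (List.Sublist.refl _)
  | cons a ℓ ih =>
    simp only [ssum]
    rw [ih F G (fun S hS => h S (hS.cons a)),
      ih (fun s b => F (s + 1) (b + a)) (fun s b => G (s + 1) (b + a)) (fun S hS => ?_)]
    have h1 := h (a :: S) (hS.cons_cons a)
    simp only [List.length_cons, List.sum_cons] at h1
    rw [add_comm S.sum a]
    exact h1

lemma prod_asc (v k : ℕ) : ∏ i ∈ Finset.range k, ((v : ℚ) + ((i : ℚ) + 1)) =
    (((v + k).choose k : ℕ) : ℚ) * ((k.factorial : ℕ) : ℚ) := by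
  induction k with
  | zero => simp
  | succ k ih =>
    rw [Finset.prod_range_succ, ih]
    have h := Nat.add_one_mul_choose_eq (v + k) k
    have h' : ((v + k + 1 : ℕ) : ℚ) * ((v + k).choose k : ℚ) =
        ((v + k + 1).choose (k + 1) : ℚ) * ((k + 1 : ℕ) : ℚ) := by
      exact_mod_cast h
    rw [← add_assoc v k 1, Nat.factorial_succ]
    push_cast at h' ⊢
    linear_combination (k.factorial : ℚ) * h'

lemma eval_fpoly (n s : ℕ) (v : ℚ) : (fpoly n s).eval v =
    ∏ i ∈ Finset.range (n - 2), (v - s + ((i : ℚ) + 1)) := by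
  simp [fpoly, Polynomial.eval_prod]

theorem t_CMP : S_CMP := by
  intro ℓ N q hn hN hq hpos hsum
  rw [mul_comm, ← ssum_mul]
  apply ssum_congr_sub
  intro S hS
  have hbs : S.length ≤ S.sum := by
    have h1 : ∀ a ∈ S, 1 ≤ a := fun a ha => hpos a (hS.subset ha)
    clear hS
    induction S with
    | nil => simp
    | cons a S ih =>
      have h2 := ih (fun b hb => h1 b (List.mem_cons_of_mem _ hb))
      have h3 := h1 a List.mem_cons_self
      simp only [List.length_cons, List.sum_cons]
      omega
  by_cases hb : S.sum < q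
  · have hV : q * N - N * S.sum = N * (q - S.sum) := by
      rw [Nat.mul_sub, mul_comm q N]
    have hle : N * S.sum ≤ q * N := by
      rw [mul_comm q N]; exact Nat.mul_le_mul_left N hb.le
    have hV1 : 1 ≤ N * (q - S.sum) := Nat.one_le_iff_ne_zero.mpr
      (Nat.mul_ne_zero (by omega) (by omega))
    rw [if_pos hb, eval_fpoly]
    by_cases hc : N * S.sum + S.length ≤ q * N
    · rw [if_pos hc, hV]
      have hs : S.length ≤ N * (q - S.sum) := by omega
      have h1 := prod_asc (N * (q - S.sum) - S.length) (ℓ.length - 2)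
      rw [← h1]
      apply Finset.prod_congr rfl
      intro i _
      rw [Nat.cast_sub hs]
      push_cast
      ring
    · rw [if_neg hc, zero_mul]
      have hs : N * (q - S.sum) < S.length := by omega
      have hlen : S.length ≤ ℓ.length := hS.length_le
      have hne : S.length ≠ ℓ.length := by
        intro he
        have h1 : S = ℓ := hS.eq_of_length he
        subst h1
        obtain ⟨a, ha⟩ : ∃ a, a ∈ S := List.exists_mem_of_length_pos (by omega)
        have h2 := hsum a ha
        omega
      symm
      apply Finset.prod_eq_zero (i := S.length - N * (q - S.sum) - 1)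
      · rw [Finset.mem_range]; omega
      · have h1 : ((S.length - N * (q - S.sum) - 1 : ℕ) : ℚ) + 1 =
            (S.length : ℚ) - (N : ℚ) * ((q - S.sum : ℕ) : ℚ) := by
          have h2 : (S.length - N * (q - S.sum) - 1) + 1 + N * (q - S.sum) = S.length := by omega
          have h3 : (((S.length - N * (q - S.sum) - 1) + 1 + N * (q - S.sum) : ℕ) : ℚ)
              = (S.length : ℚ) := by rw [h2]
          push_cast at h3 ⊢
          linarith
        rw [h1]; ring
  · rw [if_neg hb, if_neg, zero_mul]
    intro hc
    push Not at hb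
    have h1 : q * N ≤ N * S.sum := by rw [mul_comm q N]; exact Nat.mul_le_mul_left N hb
    have h2 : S.length = 0 := by omega
    have h3 : S = [] := List.length_eq_zero_iff.mp h2
    rw [h3] at hb
    simp at hb
    omega

end Pool.Agent.Run7.h73.TK.CMP
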