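import Pool.Agent.Run7.h668.TK.Iface
/-! Project TK (helper668): piece VAL (helper73). -/
set_option autoImplicit false

namespace Pool.Agent.Run7.h73.TK

open Pool.Agent.Run7.h668.TK
open Polynomial

lemma ssum_sum {ι : Type} (t : Finset ι) (ℓ : List ℕ) (F : ι → ℕ → ℕ → ℚ) :
    ssum ℓ (fun s b => ∑ i ∈ t, F i s b) = ∑ i ∈ t, ssum ℓ (F i) := by
  induction ℓ generalizing F with
  | nil => rfl
  | cons a ℓ ih =>
    simp only [ssum]
    rw [ih F, ih (fun i s b => F i (s + 1) (b + a)), ← Finset.sum_sub_distrib]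

lemma ssum_mul (ℓ : List ℕ) (F : ℕ → ℕ → ℚ) (r : ℚ) :
    ssum ℓ (fun s b => F s b * r) = ssum ℓ F * r := by
  induction ℓ generalizing F with
  | nil => rfl
  | cons a ℓ ih =>
    simp only [ssum]
    rw [ih F, ih (fun s b => F (s + 1) (b + a)), sub_mul]

lemma ssum_congr (ℓ : List ℕ) (F G : ℕ → ℕ → ℚ)
    (h : ∀ s b, s ≤ ℓ.length → F s b = G s b) : ssum ℓ F = ssum ℓ G := by
  induction ℓ generalizing F G with
  | nil => exact h 0 0 (le_refl _)
  | cons a ℓ ih =>
    simp only [ssum]
    rw [ih F G (fun s b hs => h s b (by simp; omega)),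
      ih (fun s b => F (s + 1) (b + a)) (fun s b => G (s + 1) (b + a))
        (fun s b hs => h (s + 1) (b + a) (by simp; omega))]

theorem t_VAL : S_WCO → S_VAL := by
  intro hW c c' ℓ q N D _ hdeg
  have hlen : (ℓ ++ [c, c']).length = ℓ.length + 2 := by simp
  have h1 : ∀ m b : ℕ, (((WW c c' ℓ).eval 1).coeff m).coeff b =
      ssum (ℓ ++ [c, c']) (fun s b' => if b' = b then (fpoly (ℓ.length + 2) s).coeff m else 0) := by
    intro m b
    have hS : (WW c c' ℓ).natDegree < max (WW c c' ℓ).natDegree (ℓ ++ [c, c']).length + 1 := by omega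
    rw [Polynomial.eval_eq_sum_range' hS]
    simp only [one_pow, mul_one, Polynomial.finset_sum_coeff]
    rw [Finset.sum_congr rfl (fun s0 _ => hW c c' ℓ s0 m b), ← ssum_sum]
    apply ssum_congr
    intro s b' hs
    by_cases hb : b' = b
    · simp only [hb, and_true, if_true]
      rw [Finset.sum_ite_eq, if_pos]
      rw [Finset.mem_range]; omega
    · simp [hb]
  simp only [h1]
  have h2 : ∀ m ∈ Finset.range (D + 1), (∑ b ∈ Finset.range q,
      ssum (ℓ ++ [c, c']) (fun s b' => if b' = b then (fpoly (ℓ.length + 2) s).coeff m else 0)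
        * ((q - b : ℕ) : ℚ) ^ m) * (N : ℚ) ^ m =
      ssum (ℓ ++ [c, c']) (fun s b' => if b' < q then
        (fpoly (ℓ.length + 2) s).coeff m * ((N : ℚ) * ((q - b' : ℕ) : ℚ)) ^ m else 0) := by
    intro m _
    rw [Finset.sum_mul]
    have h3 : ∀ b ∈ Finset.range q,
        ssum (ℓ ++ [c, c']) (fun s b' => if b' = b then (fpoly (ℓ.length + 2) s).coeff m else 0)
          * ((q - b : ℕ) : ℚ) ^ m * (N : ℚ) ^ m =
        ssum (ℓ ++ [c, c']) (fun s b' => if b' = b then
          (fpoly (ℓ.length + 2) s).coeff m * ((N : ℚ) * ((q - b : ℕ) : ℚ)) ^ m else 0) := by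
      intro b _
      rw [mul_assoc, ← ssum_mul]
      apply ssum_congr
      intro s b' _
      split_ifs
      · rw [mul_pow]; ring
      · simp
    rw [Finset.sum_congr rfl h3, ← ssum_sum]
    apply ssum_congr
    intro s b' _
    rw [Finset.sum_ite_eq]
    simp only [Finset.mem_range]
  rw [Finset.sum_congr rfl h2, ← ssum_sum]
  apply ssum_congr
  intro s b' _
  by_cases hb : b' < q
  · simp only [hb, if_true]
    rw [Polynomial.eval_eq_sum_range' (Nat.lt_succ_of_le (hdeg s))]
  · simp [hb]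

end Pool.Agent.Run7.h73.TK
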