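import Pool.Agent.Run7.h668.TK.Iface
/-! Project TK (helper668): piece WCO (helper73). -/
set_option autoImplicit false

namespace Pool.Agent.Run7.h73.TK.WCO

open Pool.Agent.Run7.h668.TK
open Polynomial

/-- the product of `1 - x z^a` -/
noncomputable def kz : List ℕ → Polynomial (Polynomial ℚ)
  | [] => 1
  | a :: L => (1 - X * C (X ^ a)) * kz L

lemma kz_zero (a : ℕ) (L : List ℕ) : (kz (a :: L)).coeff 0 = (kz L).coeff 0 := by
  simp [kz, sub_mul, mul_assoc]

lemma kz_succ (a : ℕ) (L : List ℕ) (s : ℕ) : (kz (a :: L)).coeff (s + 1) =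
    (kz L).coeff (s + 1) - X ^ a * (kz L).coeff s := by
  simp only [kz, sub_mul, mul_assoc, one_mul, coeff_sub, coeff_X_mul, coeff_C_mul]

lemma ssum_ind (L : List ℕ) (g : ℕ → ℚ) (s0 b0 : ℕ) :
    ssum L (fun s b => if s = s0 ∧ b = b0 then g s else 0) = g s0 * ((kz L).coeff s0).coeff b0 := by
  induction L generalizing g s0 b0 with
  | nil =>
    simp only [ssum, kz, coeff_one]
    by_cases h1 : s0 = 0
    · subst h1
      by_cases h2 : b0 = 0
      · subst h2; simp
      · simp [coeff_one, h2, Ne.symm h2]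
    · simp [h1, Ne.symm h1]
  | cons a L ih =>
    simp only [ssum]
    rw [ih]
    cases s0 with
    | zero =>
      rw [kz_zero]
      have h : ssum L (fun s b => if s + 1 = 0 ∧ b + a = b0 then g (s + 1) else 0) = 0 := by
        have h0 : (fun s b : ℕ => if s + 1 = 0 ∧ b + a = b0 then g (s + 1) else (0 : ℚ)) =
            fun s b : ℕ => if s = 0 ∧ b = 0 then (0 : ℚ) else 0 := by
          funext s b; simp
        rw [h0, ih (fun _ => 0) 0 0, zero_mul]
      rw [h, sub_zero]
    | succ s0 =>
      rw [kz_succ, coeff_sub, mul_sub]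
      congr 1
      by_cases hb : a ≤ b0
      · obtain ⟨d, rfl⟩ := Nat.exists_eq_add_of_le hb
        have h0 : (fun s b : ℕ => if s + 1 = s0 + 1 ∧ b + a = a + d then g (s + 1) else (0 : ℚ)) =
            fun s b : ℕ => if s = s0 ∧ b = d then g (s + 1) else 0 := by
          funext s b
          have e1 : (s + 1 = s0 + 1) = (s = s0) := by simp
          have e2 : (b + a = a + d) = (b = d) := by
            apply propext; constructor <;> intro h <;> omega
          simp only [e1, e2]
        rw [h0, ih (fun s => g (s + 1)) s0 d, add_comm a d, coeff_X_pow_mul]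
      · have h0 : (fun s b : ℕ => if s + 1 = s0 + 1 ∧ b + a = b0 then g (s + 1) else (0 : ℚ)) =
            fun s b : ℕ => if s = 0 ∧ b = 0 then (0 : ℚ) else 0 := by
          funext s b
          have e : ¬ (b + a = b0) := by omega
          simp [e]
        rw [h0, ih (fun _ => 0) 0 0, zero_mul, coeff_X_pow_mul', if_neg hb, mul_zero]

lemma coeff_opE (P : BB) (s : ℕ) : (opE P).coeff s = P.coeff s * (s : Polynomial (Polynomial ℚ)) := by
  cases s with
  | zero => simp [opE]
  | succ s => simp [opE, coeff_derivative]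

lemma coeff_tt_zero (a : ℕ) (P : BB) : (tt 1 a * P).coeff 0 = 0 := by
  simp [tt, mul_assoc]

lemma coeff_tt_succ (a s : ℕ) (P : BB) : (tt 1 a * P).coeff (s + 1) = C (X ^ a) * P.coeff s := by
  simp only [tt, pow_one, mul_assoc, coeff_X_mul, coeff_C_mul]

lemma ins_eq (N a : ℕ) (P : BB) : ins N a P =
    uu * P - uu * (tt 1 a * P) + (N : BB) * P - opE P + tt 1 a * opE P := by
  simp only [ins]; ring

lemma coeff_ins_zero (N a : ℕ) (P : BB) : (ins N a P).coeff 0 = (X + (N : Polynomial (Polynomial ℚ))) * P.coeff 0 := by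
  rw [ins_eq]
  simp only [coeff_add, coeff_sub, uu, coeff_C_mul, coeff_tt_zero, coeff_natCast_mul, coeff_opE]
  push_cast
  ring

lemma coeff_ins_succ (N a s : ℕ) (P : BB) : (ins N a P).coeff (s + 1) =
    (X + (N : Polynomial (Polynomial ℚ)) - ((s : Polynomial (Polynomial ℚ)) + 1)) * P.coeff (s + 1)
      - C (X ^ a) * ((X - (s : Polynomial (Polynomial ℚ))) * P.coeff s) := by
  rw [ins_eq]
  simp only [coeff_add, coeff_sub, uu, coeff_C_mul, coeff_tt_succ, coeff_natCast_mul, coeff_opE]
  push_cast
  ring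

/-- `fpoly` in the big ring -/
noncomputable def F (n s : ℕ) : Polynomial (Polynomial ℚ) := (fpoly n s).map (C : ℚ →+* Polynomial ℚ)

lemma F_succ (k s : ℕ) : F (k + 3) s =
    (X - (s : Polynomial (Polynomial ℚ)) + ((k : Polynomial (Polynomial ℚ)) + 1)) * F (k + 2) s := by
  have h : fpoly (k + 3) s = fpoly (k + 2) s * (X - C (s : ℚ) + C ((k : ℚ) + 1)) := by
    simp only [fpoly, show k + 3 - 2 = k + 1 from by omega, show k + 2 - 2 = k from by omega]
    rw [Finset.prod_range_succ]
  simp only [F, h]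
  simp
  ring

lemma F_succ' (k s : ℕ) : F (k + 3) (s + 1) =
    (X - (s : Polynomial (Polynomial ℚ))) * F (k + 2) s := by
  have h : fpoly (k + 3) (s + 1) = fpoly (k + 2) s * (X - C (s : ℚ)) := by
    simp only [fpoly, show k + 3 - 2 = k + 1 from by omega, show k + 2 - 2 = k from by omega]
    rw [Finset.prod_range_succ']
    congr 1
    · apply Finset.prod_congr rfl
      intro i _
      push_cast
      simp only [C_add, map_one]
      ring
    · push_cast
      simp only [C_add, map_one, C_0]
      ring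
  simp only [F, h]
  simp
  ring

lemma main (c c' : ℕ) (ℓ : List ℕ) (s0 : ℕ) : (WW c c' ℓ).coeff s0 =
    F (ℓ.length + 2) s0 * C ((kz (ℓ ++ [c, c'])).coeff s0) := by
  induction ℓ generalizing s0 with
  | nil =>
    have hF : F 2 s0 = 1 := by simp [F, fpoly]
    have hW : WW c c' [] = (1 - tt 1 c) * ((1 - tt 1 c') * 1) := by simp [WW]
    simp only [List.length_nil, zero_add, hF, one_mul, List.nil_append]
    have key : ∀ (a : ℕ) (P : BB) (Q : Polynomial (Polynomial ℚ)),
        (∀ s, P.coeff s = C (Q.coeff s)) →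
        ∀ s, ((1 - tt 1 a) * P).coeff s = C (((1 - X * C (X ^ a)) * Q).coeff s) := by
      intro a P Q h s
      have e1 : (1 - tt 1 a) * P = P - tt 1 a * P := by ring
      have e2 : (1 - X * C (X ^ a)) * Q = Q - X * (C (X ^ a) * Q) := by ring
      rw [e1, e2, coeff_sub, coeff_sub]
      cases s with
      | zero =>
        rw [coeff_tt_zero, coeff_X_mul_zero, h, sub_zero, sub_zero]
      | succ s =>
        rw [coeff_tt_succ, coeff_X_mul, coeff_C_mul, h, h, C_sub, C_mul]
    rw [hW]
    apply key
    apply key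
    intro s
    simp only [kz, coeff_one]
    split_ifs <;> simp
  | cons a ℓ ih =>
    have hlen : (a :: ℓ).length + 2 = ℓ.length + 3 := by simp
    rw [hlen]
    simp only [WW, List.cons_append]
    cases s0 with
    | zero =>
      rw [coeff_ins_zero, kz_zero, ih, F_succ]
      push_cast
      ring
    | succ s =>
      rw [coeff_ins_succ, kz_succ, ih, ih, C_sub, C_mul]
      have h1 := F_succ ℓ.length (s + 1)
      have h2 := F_succ' ℓ.length s
      push_cast at h1 ⊢
      generalize F (ℓ.length + 3) (s + 1) = G3 at h1 h2 ⊢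
      generalize F (ℓ.length + 2) (s + 1) = G1 at h1 ⊢
      generalize F (ℓ.length + 2) s = G0 at h2 ⊢
      generalize (C ((kz (ℓ ++ [c, c'])).coeff (s + 1)) : Polynomial (Polynomial ℚ)) = k1
      generalize (C ((kz (ℓ ++ [c, c'])).coeff s) : Polynomial (Polynomial ℚ)) = k0
      generalize (C (X ^ a) : Polynomial (Polynomial ℚ)) = za
      linear_combination (-k1) * h1 + (za * k0) * h2

theorem t_WCO : S_WCO := by
  intro c c' ℓ s0 m b0
  rw [main, coeff_mul_C, F, coeff_map, coeff_C_mul,
    ssum_ind (ℓ ++ [c, c']) (fun s => (fpoly (ℓ.length + 2) s).coeff m) s0 b0]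

end Pool.Agent.Run7.h73.TK.WCO
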